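import Pool.Agent.X225.Fr.Walk
import Pool.Agent.X225.St.Basic

/-!
# Free groups acting freely and transitively on the `k`-tuples of each type
-/

universe u v w

namespace Pool.Agent.X225.Fr

open Function FirstOrder FirstOrder.Language

variable (L : FirstOrder.Language.{u, v}) {M : Type w} [L.Structure M] {k : ℕ}

/-- same quantifier-free type -/
def SameType (a b : Fin k → M) : Prop :=
  ∀ (n : ℕ) (R : L.Relations n) (j : Fin n → Fin k),
    Structure.RelMap R (a ∘ j) ↔ Structure.RelMap R (b ∘ j)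

variable (M) in
/-- no nontrivial isomorphisms between enumerations of a `k`-set -/
def Rigid (k : ℕ) : Prop :=
  ∀ (x : Fin k → M) (τ : Fin k → Fin k), Injective x → Injective τ → SameType L x (x ∘ τ) → τ = id

/-- the substructure with universe the range of `a` -/
def rng [L.IsRelational] (a : Fin k → M) : L.Substructure M :=
  ⟨Set.range a, fun {n} fn => isEmptyElim fn⟩

variable {L}

theorem exists_aut [L.IsRelational] (hM : L.IsUltrahomogeneous M) {a b : Fin k → M}
    (ha : Injective a) (hb : Injective b) (h : SameType L a b) :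
    ∃ g : M ≃[L] M, ∀ m, g (a m) = b m := by
  classical
  have hfin : Finite (rng L a) := (Set.finite_range a).to_subtype
  choose c hc using fun s : rng L a => s.2
  have hca : ∀ m (hm : a m ∈ rng L a), c ⟨a m, hm⟩ = m := fun m hm => ha (hc ⟨a m, hm⟩)
  let f : rng L a ↪[L] M :=
    { toFun := fun s => b (c s)
      inj' := fun s s' hs => by
        have h1 := hb hs
        apply Subtype.ext
        rw [← hc s, ← hc s', h1]
      map_fun' := fun {_} fn _ => isEmptyElim fn
      map_rel' := fun {n} R x => by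
        have h1 := h n R (fun i => c (x i))
        have h2 : (a ∘ fun i => c (x i)) = fun i => (x i : M) := funext fun i => hc (x i)
        rw [h2] at h1
        exact h1.symm }
  obtain ⟨g, hg⟩ := hM (rng L a) Substructure.FG.of_finite f
  refine ⟨g, fun m => ?_⟩
  have hm : a m ∈ rng L a := ⟨m, rfl⟩
  have h1 := congrArg (fun e : rng L a ↪[L] M => e ⟨a m, hm⟩) hg
  change b (c ⟨a m, hm⟩) = g (a m) at h1
  rw [hca] at h1
  exact h1.symm

/-- the steps given by a finite set of labelled edges -/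
def ed (E : Finset (ℕ × M × M)) (l : ℕ × Bool) (x y : M) : Prop :=
  cond l.2 ((l.1, x, y) ∈ E) ((l.1, y, x) ∈ E)

omit [L.Structure M] in
theorem ed_true (E : Finset (ℕ × M × M)) (i : ℕ) (x y : M) :
    ed E (i, true) x y ↔ (i, x, y) ∈ E := Iff.rfl

omit [L.Structure M] in
theorem ed_false (E : Finset (ℕ × M × M)) (i : ℕ) (x y : M) :
    ed E (i, false) x y ↔ (i, y, x) ∈ E := Iff.rfl

variable (L) in
/-- every label is a part of an automorphism -/
def AutP (E : Finset (ℕ × M × M)) : Prop :=
  ∀ i, ∃ g : M ≃[L] M, ∀ x y, (i, x, y) ∈ E → g x = y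

theorem AutP.step {E : Finset (ℕ × M × M)} (h : AutP L E) (l : ℕ × Bool) :
    ∃ g : M ≃[L] M, ∀ x y, ed E l x y → g x = y := by
  obtain ⟨i, ε⟩ := l
  obtain ⟨g, hg⟩ := h i
  cases ε with
  | true => exact ⟨g, hg⟩
  | false =>
    refine ⟨g.symm, fun x y hxy => ?_⟩
    rw [← hg y x hxy]
    exact g.symm_apply_apply y

theorem AutP.pb {E : Finset (ℕ × M × M)} (h : AutP L E) : PB (ed E) where
  symm := by
    rintro ⟨i, ε⟩ x y hxy
    cases ε <;> exact hxy
  fn := by
    intro l x y y' h1 h2
    obtain ⟨g, hg⟩ := h.step l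
    rw [← hg _ _ h1, ← hg _ _ h2]

theorem SameType.refl (x : Fin k → M) : SameType L x x := fun _ _ _ => Iff.rfl

theorem SameType.symm {x y : Fin k → M} (h : SameType L x y) : SameType L y x :=
  fun n R j => (h n R j).symm

theorem SameType.trans {x y z : Fin k → M} (h : SameType L x y) (h' : SameType L y z) :
    SameType L x z := fun n R j => (h n R j).trans (h' n R j)

theorem SameType.of_aut (g : M ≃[L] M) {x y : Fin k → M} (h : ∀ m, g (x m) = y m) :
    SameType L x y := by
  intro n R j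
  have h1 : y ∘ j = g ∘ (x ∘ j) := funext fun i => (h (j i)).symm
  rw [h1]
  exact (g.map_rel R (x ∘ j)).symm

theorem AutP.walk {E : Finset (ℕ × M × M)} (h : AutP L E) :
    ∀ (w : List (ℕ × Bool)) {x y : Fin k → M}, Walk (ed E) w x y → SameType L x y
  | [], x, y, hw => by
    obtain rfl : x = y := hw
    exact SameType.refl _
  | l :: w, x, y, ⟨z, hz, hy⟩ => by
    obtain ⟨g, hg⟩ := h.step l
    exact (h.walk w hz).trans (SameType.of_aut g fun m => hg _ _ (hy m))

/-- all points of `E` -/
def pts [DecidableEq M] (E : Finset (ℕ × M × M)) : Finset M :=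
  E.image (fun e => e.2.1) ∪ E.image fun e => e.2.2

omit [L.Structure M] in
theorem mem_pts_left [DecidableEq M] {E : Finset (ℕ × M × M)} {i : ℕ} {x y : M}
    (h : (i, x, y) ∈ E) : x ∈ pts E :=
  Finset.mem_union_left _ (Finset.mem_image_of_mem (fun e : ℕ × M × M => e.2.1) h)

omit [L.Structure M] in
theorem mem_pts_right [DecidableEq M] {E : Finset (ℕ × M × M)} {i : ℕ} {x y : M}
    (h : (i, x, y) ∈ E) : y ∈ pts E :=
  Finset.mem_union_right _ (Finset.mem_image_of_mem (fun e : ℕ × M × M => e.2.2) h)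

theorem ext_left [DecidableEq M] (hNA : St.NA L M) {E : Finset (ℕ × M × M)} (hA : AutP L E)
    (hF : Forest (ed E) k) (i : ℕ) (c : M) (hc : ∀ y, (i, c, y) ∉ E) :
    ∃ d, AutP L (insert (i, c, d) E) ∧ Forest (ed (insert (i, c, d) E)) k := by
  obtain ⟨g, hg⟩ := hA i
  obtain ⟨h, hh1, hh2⟩ := hNA ((E.filter fun e => e.1 = i).image fun e => e.2.2) (g c)
    (insert c (pts E)) (by
      intro hmem
      obtain ⟨⟨i', x, y⟩, he, hy⟩ := Finset.mem_image.1 hmem
      rw [Finset.mem_filter] at he
      obtain ⟨he, hi⟩ := he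
      change i' = i at hi
      subst hi
      change y = g c at hy
      have h1 := hg x y he
      rw [hy] at h1
      rw [g.injective h1] at he
      exact hc y he)
  refine ⟨h (g c), ?_, ?_⟩
  · intro i'
    by_cases hi : i' = i
    · subst hi
      refine ⟨h.comp g, fun x y hxy => ?_⟩
      change h (g x) = y
      rcases Finset.mem_insert.1 hxy with he | he
      · simp only [Prod.mk.injEq, true_and] at he
        rw [he.1, he.2]
      · rw [hg x y he]
        exact hh1 y (Finset.mem_image.2 ⟨(i', x, y), Finset.mem_filter.2 ⟨he, rfl⟩, rfl⟩)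
    · obtain ⟨g', hg'⟩ := hA i'
      refine ⟨g', fun x y hxy => ?_⟩
      rcases Finset.mem_insert.1 hxy with he | he
      · simp only [Prod.mk.injEq] at he
        exact absurd he.1 hi
      · exact hg' x y he
  · have hfresh : ∀ i' x y, (i', x, y) ∈ E → x ≠ h (g c) ∧ y ≠ h (g c) := by
      intro i' x y he
      exact ⟨fun hx => hh2 (Finset.mem_insert_of_mem (hx ▸ mem_pts_left he)),
        fun hy => hh2 (Finset.mem_insert_of_mem (hy ▸ mem_pts_right he))⟩
    have hcd : c ≠ h (g c) := fun hcd => hh2 (by rw [← hcd]; exact Finset.mem_insert_self _ _)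
    have hA' : AutP L (insert (i, c, h (g c)) E) := by
      intro i'
      by_cases hi : i' = i
      · subst hi
        refine ⟨h.comp g, fun x y hxy => ?_⟩
        change h (g x) = y
        rcases Finset.mem_insert.1 hxy with he | he
        · simp only [Prod.mk.injEq, true_and] at he
          rw [he.1, he.2]
        · rw [hg x y he]
          exact hh1 y (Finset.mem_image.2 ⟨(i', x, y), Finset.mem_filter.2 ⟨he, rfl⟩, rfl⟩)
      · obtain ⟨g', hg'⟩ := hA i'
        refine ⟨g', fun x y hxy => ?_⟩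
        rcases Finset.mem_insert.1 hxy with he | he
        · simp only [Prod.mk.injEq] at he
          exact absurd he.1 hi
        · exact hg' x y he
    refine forest_leaf hF hA'.pb (h (g c)) c (i, false) hcd ?_ ?_
    · rintro ⟨i', ε⟩ x y hxy hx hy
      cases ε with
      | true =>
        rcases Finset.mem_insert.1 hxy with he | he
        · simp only [Prod.mk.injEq] at he
          exact absurd he.2.2 hy
        · exact he
      | false =>
        rcases Finset.mem_insert.1 hxy with he | he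
        · simp only [Prod.mk.injEq] at he
          exact absurd he.2.2 hx
        · exact he
    · rintro ⟨i', ε⟩ z hz
      cases ε with
      | true =>
        rcases Finset.mem_insert.1 hz with he | he
        · simp only [Prod.mk.injEq] at he
          exact absurd he.2.1.symm hcd
        · exact absurd rfl (hfresh _ _ _ he).1
      | false =>
        rcases Finset.mem_insert.1 hz with he | he
        · simp only [Prod.mk.injEq] at he
          exact ⟨by rw [he.1], he.2.1⟩
        · exact absurd rfl (hfresh _ _ _ he).2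

theorem ext_right [DecidableEq M] (hNA : St.NA L M) {E : Finset (ℕ × M × M)} (hA : AutP L E)
    (hF : Forest (ed E) k) (i : ℕ) (d : M) (hd : ∀ x, (i, x, d) ∉ E) :
    ∃ c, AutP L (insert (i, c, d) E) ∧ Forest (ed (insert (i, c, d) E)) k := by
  obtain ⟨g, hg⟩ := hA i
  obtain ⟨h, hh1, hh2⟩ := hNA ((E.filter fun e => e.1 = i).image fun e => e.2.1) (g.symm d)
    (insert d (pts E)) (by
      intro hmem
      obtain ⟨⟨i', x, y⟩, he, hy⟩ := Finset.mem_image.1 hmem
      rw [Finset.mem_filter] at he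
      obtain ⟨he, hi⟩ := he
      change i' = i at hi
      subst hi
      change x = g.symm d at hy
      have h1 := hg x y he
      rw [hy] at h1
      have h2 : g (g.symm d) = d := g.apply_symm_apply d
      rw [h2] at h1
      rw [← h1] at he
      exact hd x he)
  have hA' : AutP L (insert (i, h (g.symm d), d) E) := by
    intro i'
    by_cases hi : i' = i
    · subst hi
      refine ⟨g.comp h.symm, fun x y hxy => ?_⟩
      change g (h.symm x) = y
      rcases Finset.mem_insert.1 hxy with he | he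
      · simp only [Prod.mk.injEq, true_and] at he
        rw [he.1, he.2]
        have h2 : h.symm (h (g.symm d)) = g.symm d := h.symm_apply_apply _
        rw [h2]
        exact g.apply_symm_apply d
      · have h3 := hh1 x (Finset.mem_image.2 ⟨(i', x, y), Finset.mem_filter.2 ⟨he, rfl⟩, rfl⟩)
        have h2 : h.symm (h x) = x := h.symm_apply_apply _
        rw [h3] at h2
        rw [h2]
        exact hg x y he
    · obtain ⟨g', hg'⟩ := hA i'
      refine ⟨g', fun x y hxy => ?_⟩
      rcases Finset.mem_insert.1 hxy with he | he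
      · simp only [Prod.mk.injEq] at he
        exact absurd he.1 hi
      · exact hg' x y he
  refine ⟨h (g.symm d), hA', ?_⟩
  have hfresh : ∀ i' x y, (i', x, y) ∈ E → x ≠ h (g.symm d) ∧ y ≠ h (g.symm d) := by
    intro i' x y he
    exact ⟨fun hx => hh2 (Finset.mem_insert_of_mem (hx ▸ mem_pts_left he)),
      fun hy => hh2 (Finset.mem_insert_of_mem (hy ▸ mem_pts_right he))⟩
  have hcd : d ≠ h (g.symm d) := fun hcd => hh2 (by rw [← hcd]; exact Finset.mem_insert_self _ _)
  refine forest_leaf hF hA'.pb (h (g.symm d)) d (i, true) hcd ?_ ?_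
  · rintro ⟨i', ε⟩ x y hxy hx hy
    cases ε with
    | true =>
      rcases Finset.mem_insert.1 hxy with he | he
      · simp only [Prod.mk.injEq] at he
        exact absurd he.2.1 hx
      · exact he
    | false =>
      rcases Finset.mem_insert.1 hxy with he | he
      · simp only [Prod.mk.injEq] at he
        exact absurd he.2.1 hy
      · exact he
  · rintro ⟨i', ε⟩ z hz
    cases ε with
    | true =>
      rcases Finset.mem_insert.1 hz with he | he
      · simp only [Prod.mk.injEq] at he
        exact ⟨by rw [he.1], he.2.2⟩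
      · exact absurd rfl (hfresh _ _ _ he).1
    | false =>
      rcases Finset.mem_insert.1 hz with he | he
      · simp only [Prod.mk.injEq] at he
        exact absurd he.2.2.symm hcd
      · exact absurd rfl (hfresh _ _ _ he).2

theorem ext_conn [L.IsRelational] [DecidableEq M] (hM : L.IsUltrahomogeneous M)
    (hrig : Rigid L M k) {E : Finset (ℕ × M × M)} (hA : AutP L E)
    (hF : Forest (ed E) k) (a b : Fin k → M) (ha : Injective a) (hb : Injective b)
    (hab : SameType L a b) :
    ∃ E', E ⊆ E' ∧ AutP L E' ∧ Forest (ed E') k ∧ ∃ w, Walk (ed E') w a b := by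
  by_cases hconn : ∃ w, Walk (ed E) w a b
  · exact ⟨E, subset_rfl, hA, hF, hconn⟩
  push Not at hconn
  obtain ⟨j, hj⟩ := Infinite.exists_notMem_finset (E.image fun e => e.1)
  have hj' : ∀ x y, (j, x, y) ∉ E := fun x y h =>
    hj (Finset.mem_image_of_mem (fun e : ℕ × M × M => e.1) h)
  let E' : Finset (ℕ × M × M) := E ∪ Finset.univ.image fun m => (j, a m, b m)
  have hE' : ∀ i x y, (i, x, y) ∈ E' ↔ (i, x, y) ∈ E ∨ ∃ m, j = i ∧ a m = x ∧ b m = y := by
    intro i x y
    simp [E']
  have hA' : AutP L E' := by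
    intro i
    by_cases hi : i = j
    · obtain ⟨g, hg⟩ := exists_aut hM ha hb hab
      refine ⟨g, fun x y hxy => ?_⟩
      rcases (hE' _ _ _).1 hxy with he | ⟨m, -, h1, h2⟩
      · exact absurd (hi ▸ he) (hj' x y)
      · rw [← h1, ← h2, hg]
    · obtain ⟨g, hg⟩ := hA i
      refine ⟨g, fun x y hxy => ?_⟩
      rcases (hE' _ _ _).1 hxy with he | ⟨m, h0, h1, h2⟩
      · exact hg x y he
      · exact absurd h0.symm hi
  refine ⟨E', Finset.subset_union_left, hA', ?_, [(j, true)], a, rfl, fun m =>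
    (hE' _ _ _).2 (Or.inr ⟨m, rfl, rfl, rfl⟩)⟩
  refine forest_gen hF hA.pb hA'.pb j a b ha hb ?_ ?_ hconn (SameType L)
    (fun x y h => h.symm) (fun x y z h h' => h.trans h') (fun w x y _ hw => hA.walk w hw) hab hrig
  · rintro ⟨i, ε⟩ x y hl hxy
    have hl' : i ≠ j := hl
    cases ε with
    | true =>
      rcases (hE' _ _ _).1 hxy with he | ⟨m, h0, h1, h2⟩
      · exact he
      · exact absurd h0.symm hl'
    | false =>
      rcases (hE' _ _ _).1 hxy with he | ⟨m, h0, h1, h2⟩
      · exact he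
      · exact absurd h0.symm hl'
  · intro x y hxy
    rcases (hE' _ _ _).1 hxy with he | ⟨m, h0, h1, h2⟩
    · exact absurd he (hj' x y)
    · exact ⟨m, h1.symm, h2.symm⟩

omit [L.Structure M] in
theorem forest_empty (hk : 1 ≤ k) : Forest (ed (∅ : Finset (ℕ × M × M))) k := by
  intro w x _ _ hw
  rcases w with _ | ⟨⟨i, ε⟩, w⟩
  · rfl
  · obtain ⟨z, -, hz⟩ := hw
    have h1 := hz ⟨0, hk⟩
    cases ε
    · exact absurd h1 (Finset.notMem_empty _)
    · exact absurd h1 (Finset.notMem_empty _)

variable (L M) in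
/-- the finite approximations -/
def St (k : ℕ) : Type w := {E : Finset (ℕ × M × M) // AutP L E ∧ Forest (ed E) k}

instance : Preorder (St L M k) := inferInstanceAs (Preorder {E : Finset (ℕ × M × M) //
  AutP L E ∧ Forest (ed E) k})

/-- the tasks -/
abbrev Task (M : Type w) (k : ℕ) : Type w := (ℕ × M) ⊕ (ℕ × M) ⊕ ((Fin k → M) × (Fin k → M))

variable (L) in
/-- what has to be achieved -/
def Goal (E : Finset (ℕ × M × M)) : Task M k → Prop
  | .inl (i, c) => ∃ d, (i, c, d) ∈ E
  | .inr (.inl (i, d)) => ∃ c, (i, c, d) ∈ E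
  | .inr (.inr (a, b)) => Injective a → Injective b → SameType L a b → ∃ w, Walk (ed E) w a b

theorem achieve [L.IsRelational] (hM : L.IsUltrahomogeneous M) (hNA : St.NA L M)
    (hrig : Rigid L M k) (E : St L M k) (t : Task M k) : ∃ E' : St L M k, Goal L E'.1 t ∧ E ≤ E' := by
  classical
  obtain ⟨E, hA, hF⟩ := E
  rcases t with ⟨i, c⟩ | ⟨i, d⟩ | ⟨a, b⟩
  · by_cases h : ∃ d, (i, c, d) ∈ E
    · exact ⟨⟨E, hA, hF⟩, h, le_rfl⟩
    · push Not at h
      obtain ⟨d, h1, h2⟩ := ext_left hNA hA hF i c h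
      exact ⟨⟨_, h1, h2⟩, ⟨d, Finset.mem_insert_self _ _⟩, Finset.subset_insert _ _⟩
  · by_cases h : ∃ c, (i, c, d) ∈ E
    · exact ⟨⟨E, hA, hF⟩, h, le_rfl⟩
    · push Not at h
      obtain ⟨c, h1, h2⟩ := ext_right hNA hA hF i d h
      exact ⟨⟨_, h1, h2⟩, ⟨c, Finset.mem_insert_self _ _⟩, Finset.subset_insert _ _⟩
  · by_cases h : Injective a ∧ Injective b ∧ SameType L a b
    · obtain ⟨E', h1, h2, h3, h4⟩ := ext_conn hM hrig hA hF a b h.1 h.2.1 h.2.2
      exact ⟨⟨E', h2, h3⟩, fun _ _ _ => h4, h1⟩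
    · exact ⟨⟨E, hA, hF⟩, fun h1 h2 h3 => absurd ⟨h1, h2, h3⟩ h, le_rfl⟩

theorem ed_mono {E E' : Finset (ℕ × M × M)} (h : E ⊆ E') (l : ℕ × Bool) (x y : M)
    (hxy : ed E l x y) : ed E' l x y := by
  obtain ⟨i, ε⟩ := l
  cases ε
  · exact h hxy
  · exact h hxy

/-- **the limit** -/
theorem exists_perms [L.IsRelational] [Countable M] (hk : 1 ≤ k) (hM : L.IsUltrahomogeneous M)
    (hNA : St.NA L M) (hrig : Rigid L M k) :
    ∃ gp : ℕ → Equiv.Perm M,
      (∀ i (n : ℕ) (x : Fin n → M), ∃ g : M ≃[L] M, ∀ m, g (x m) = gp i (x m)) ∧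
      Forest (fun l x y => cond l.2 (gp l.1 x = y) (gp l.1 y = x)) k ∧
      ∀ a b : Fin k → M, Injective a → Injective b → SameType L a b →
        ∃ w, Walk (fun l x y => cond l.2 (gp l.1 x = y) (gp l.1 y = x)) w a b := by
  classical
  have _ : Encodable (Task M k) := Encodable.ofCountable _
  let D : Task M k → Order.Cofinal (St L M k) := fun t =>
    ⟨{E | Goal L E.1 t}, fun E => by
      obtain ⟨E', h1, h2⟩ := achieve hM hNA hrig E t
      exact ⟨E', h1, h2⟩⟩
  let E0 : St L M k := ⟨∅, fun i => ⟨Language.Equiv.refl L M, fun x y h =>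
    absurd h (Finset.notMem_empty _)⟩, forest_empty hk⟩
  let I : Order.Ideal (St L M k) := Order.idealOfCofinals E0 D
  have hI : ∀ t : Task M k, ∃ E ∈ I, Goal L E.1 t := by
    intro t
    obtain ⟨E, h1, h2⟩ := Order.cofinal_meets_idealOfCofinals E0 D t
    exact ⟨E, h2, h1⟩
  have hdir : ∀ (n : ℕ) (F : Fin n → St L M k), (∀ m, F m ∈ I) → ∃ E ∈ I, ∀ m, F m ≤ E := by
    intro n
    induction n with
    | zero => exact fun F _ => ⟨E0, Order.mem_idealOfCofinals E0 D, fun m => m.elim0⟩
    | succ n ih =>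
      intro F hF
      obtain ⟨E1, h1, h2⟩ := ih (fun m => F m.castSucc) fun m => hF _
      obtain ⟨E2, h3, h4, h5⟩ := I.directed E1 h1 (F (Fin.last n)) (hF _)
      refine ⟨E2, h3, fun m => ?_⟩
      refine Fin.lastCases h5 (fun m => ?_) m
      exact (h2 m).trans h4
  let S : ℕ × Bool → M → M → Prop := fun l x y => ∃ E ∈ I, ed E.1 l x y
  have hSfn : PB S := by
    constructor
    · rintro l x y ⟨E, hE, h⟩
      exact ⟨E, hE, E.2.1.pb.symm _ _ _ h⟩
    · rintro l x y y' ⟨E, hE, h⟩ ⟨E', hE', h'⟩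
      obtain ⟨E2, h3, h4, h5⟩ := I.directed E hE E' hE'
      exact E2.2.1.pb.fn l x y y' (ed_mono h4 _ _ _ h) (ed_mono h5 _ _ _ h')
  have htot : ∀ i x, ∃ y, S (i, true) x y := by
    intro i x
    obtain ⟨E, hE, d, hd⟩ := hI (.inl (i, x))
    exact ⟨d, E, hE, hd⟩
  have htot' : ∀ i y, ∃ x, S (i, true) x y := by
    intro i y
    obtain ⟨E, hE, d, hd⟩ := hI (.inr (.inl (i, y)))
    exact ⟨d, E, hE, hd⟩
  choose f hf using htot
  choose f' hf' using htot'
  let gp : ℕ → Equiv.Perm M := fun i =>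
    { toFun := f i
      invFun := f' i
      left_inv := fun x => hSfn.inj (hf' i (f i x)) (hf i x)
      right_inv := fun y => hSfn.fn _ _ _ _ (hf i (f' i y)) (hf' i y) }
  have hgp : ∀ i x y, gp i x = y ↔ S (i, true) x y := by
    intro i x y
    constructor
    · rintro rfl
      exact hf i x
    · exact fun h => hSfn.fn _ _ _ _ (hf i x) h
  have hSe : (fun (l : ℕ × Bool) x y => cond l.2 (gp l.1 x = y) (gp l.1 y = x)) = S := by
    funext l x y
    obtain ⟨i, ε⟩ := l
    cases ε with
    | true => exact propext (hgp i x y)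
    | false =>
      refine propext ((hgp i y x).trans ⟨fun h => hSfn.symm _ _ _ h, fun h => hSfn.symm _ _ _ h⟩)
  have hstp : ∀ (n : ℕ) l (x y : Fin n → M), (∀ m, S l (x m) (y m)) →
      ∃ E ∈ I, ∀ m, ed E.1 l (x m) (y m) := by
    intro n l x y h
    choose F hF hF' using h
    obtain ⟨E, hE, hE'⟩ := hdir n F hF
    exact ⟨E, hE, fun m => ed_mono (hE' m) _ _ _ (hF' m)⟩
  have hwalk : ∀ (w : List (ℕ × Bool)) (x y : Fin k → M), Walk S w x y →
      ∃ E ∈ I, Walk (ed E.1) w x y := by
    intro w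
    induction w with
    | nil => exact fun x y hw => ⟨E0, Order.mem_idealOfCofinals E0 D, hw⟩
    | cons l w ih =>
      rintro x y ⟨z, hz, hy⟩
      obtain ⟨E1, h1, h2⟩ := ih x z hz
      obtain ⟨E2, h3, h4⟩ := hstp k l z y hy
      obtain ⟨E, h5, h6, h7⟩ := I.directed E1 h1 E2 h3
      exact ⟨E, h5, z, Walk.mono (ed_mono h6) w h2, fun m => ed_mono h7 _ _ _ (h4 m)⟩
  refine ⟨gp, ?_, ?_, ?_⟩
  · intro i n x
    obtain ⟨E, hE, h⟩ := hstp n (i, true) x (fun m => gp i (x m)) fun m => (hgp _ _ _).1 rfl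
    obtain ⟨g, hg⟩ := E.2.1 i
    exact ⟨g, fun m => hg _ _ (h m)⟩
  · rw [hSe]
    intro w x hx hred hw
    obtain ⟨E, hE, h⟩ := hwalk w x x hw
    exact E.2.2 w x hx hred h
  · rw [hSe]
    intro a b ha hb hab
    obtain ⟨E, hE, h⟩ := hI (.inr (.inr (a, b)))
    obtain ⟨w, hw⟩ := h ha hb hab
    exact ⟨w, Walk.mono (fun l x y h => ⟨E, hE, h⟩) w hw⟩

end Pool.Agent.X225.Fr
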