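import Mathlib

/-!
# Partial actions of free groups without cycles on `k`-tuples
-/

universe w

namespace Pool.Agent.X225.Fr

open Function

variable {X : Type w} {k : ℕ}

/-- the inverse letter -/
def inv (l : ℕ × Bool) : ℕ × Bool := (l.1, !l.2)

theorem inv_inv (l : ℕ × Bool) : inv (inv l) = l := by simp [inv]

theorem inv_ne (l : ℕ × Bool) : l ≠ inv l := by
  intro h
  have := congrArg Prod.snd h
  simp [inv] at this

/-- one step on tuples -/
def Stp (S : ℕ × Bool → X → X → Prop) (l : ℕ × Bool) (x y : Fin k → X) : Prop :=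
  ∀ m, S l (x m) (y m)

/-- a word, applied from the right to the left -/
def Walk (S : ℕ × Bool → X → X → Prop) : List (ℕ × Bool) → (Fin k → X) → (Fin k → X) → Prop
  | [], x, y => x = y
  | l :: w, x, y => ∃ z, Walk S w x z ∧ Stp S l z y

/-- there are no reduced closed walks -/
def Forest (S : ℕ × Bool → X → X → Prop) (k : ℕ) : Prop :=
  ∀ (w : List (ℕ × Bool)) (x : Fin k → X), Injective x → FreeGroup.IsReduced w →
    Walk S w x x → w = []

/-- partial bijections -/
structure PB (S : ℕ × Bool → X → X → Prop) : Prop where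
  symm : ∀ l x y, S l x y → S (inv l) y x
  fn : ∀ l x y y', S l x y → S l x y' → y = y'

theorem PB.inj {S : ℕ × Bool → X → X → Prop} (h : PB S) {l : ℕ × Bool} {x x' y : X}
    (h1 : S l x y) (h2 : S l x' y) : x = x' :=
  h.fn _ _ _ _ (h.symm _ _ _ h1) (h.symm _ _ _ h2)

theorem PB.stp_inj {S : ℕ × Bool → X → X → Prop} (h : PB S) {l : ℕ × Bool} {x y : Fin k → X}
    (h1 : Stp S l x y) (hx : Injective x) : Injective y := by
  intro m m' hm
  apply hx
  have h2 := h1 m'
  rw [← hm] at h2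
  exact h.inj (h1 m) h2

theorem PB.walk_inj {S : ℕ × Bool → X → X → Prop} (h : PB S) :
    ∀ (w : List (ℕ × Bool)) {x y : Fin k → X}, Walk S w x y → Injective x → Injective y
  | [], x, y, hw, hx => by
    obtain rfl : x = y := hw
    exact hx
  | l :: w, x, y, ⟨z, hz, hy⟩, hx => h.stp_inj hy (h.walk_inj w hz hx)

theorem walk_append (S : ℕ × Bool → X → X → Prop) :
    ∀ (u w : List (ℕ × Bool)) (x y : Fin k → X),
      Walk S (u ++ w) x y ↔ ∃ z, Walk S w x z ∧ Walk S u z y
  | [], w, x, y => ⟨fun h => ⟨y, h, rfl⟩, by rintro ⟨z, h, rfl⟩; exact h⟩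
  | l :: u, w, x, y => by
    constructor
    · rintro ⟨z, hz, hy⟩
      obtain ⟨z', h1, h2⟩ := (walk_append S u w x z).1 hz
      exact ⟨z', h1, z, h2, hy⟩
    · rintro ⟨z', h1, z, h2, hy⟩
      exact ⟨z, (walk_append S u w x z).2 ⟨z', h1, h2⟩, hy⟩

theorem Walk.mono {S S' : ℕ × Bool → X → X → Prop} (h : ∀ l x y, S l x y → S' l x y) :
    ∀ (w : List (ℕ × Bool)) {x y : Fin k → X}, Walk S w x y → Walk S' w x y
  | [], _, _, hw => hw
  | l :: w, _, _, ⟨z, hz, hy⟩ => ⟨z, Walk.mono h w hz, fun m => h _ _ _ (hy m)⟩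

theorem Walk.comp {S : ℕ × Bool → X → X → Prop} (τ : Fin k → Fin k) :
    ∀ (w : List (ℕ × Bool)) {x y : Fin k → X}, Walk S w x y → Walk S w (x ∘ τ) (y ∘ τ)
  | [], x, y, hw => by
    obtain rfl : x = y := hw
    rfl
  | l :: w, x, y, ⟨z, hz, hy⟩ => ⟨z ∘ τ, Walk.comp τ w hz, fun m => hy (τ m)⟩

theorem Walk.symm {S : ℕ × Bool → X → X → Prop} (h : PB S) :
    ∀ (w : List (ℕ × Bool)) {x y : Fin k → X}, Walk S w x y → ∃ w', Walk S w' y x
  | [], x, y, hw => by
    obtain rfl : x = y := hw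
    exact ⟨[], rfl⟩
  | l :: w, x, y, ⟨z, hz, hy⟩ => by
    obtain ⟨w', hw'⟩ := Walk.symm h w hz
    exact ⟨w' ++ [inv l], (walk_append S _ _ _ _).2
      ⟨z, ⟨y, rfl, fun m => h.symm _ _ _ (hy m)⟩, hw'⟩⟩

/-- adding a leaf -/
theorem forest_leaf {S S' : ℕ × Bool → X → X → Prop} (hS : Forest S k) (hPB : PB S') (v u : X)
    (l0 : ℕ × Bool) (huv : u ≠ v) (h1 : ∀ l x y, S' l x y → x ≠ v → y ≠ v → S l x y)
    (h2 : ∀ l z, S' l v z → l = l0 ∧ z = u) : Forest S' k := by
  -- steps into `v`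
  have h3 : ∀ l z, S' l z v → l = inv l0 ∧ z = u := by
    intro l z hz
    obtain ⟨h4, h5⟩ := h2 _ _ (hPB.symm _ _ _ hz)
    exact ⟨by rw [← h4, inv_inv], h5⟩
  have key : ∀ (w : List (ℕ × Bool)) (x y : Fin k → X), FreeGroup.IsReduced w →
      Walk S' w x y → (∀ m, x m ≠ v) → (∀ m, y m ≠ v) → Walk S w x y := by
    intro w
    induction w with
    | nil => exact fun x y _ hw _ _ => hw
    | cons l w ih =>
      rintro x y hred ⟨z, hz, hy⟩ hx hyv
      have hzv : ∀ m, z m ≠ v := by
        intro m hm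
        have h4 := hy m
        rw [hm] at h4
        obtain ⟨h5, -⟩ := h2 _ _ h4
        rcases w with _ | ⟨l', w⟩
        · obtain rfl : x = z := hz
          exact hx m hm
        · obtain ⟨z', -, hz'⟩ := hz
          have h6 := hz' m
          rw [hm] at h6
          obtain ⟨h7, -⟩ := h3 _ _ h6
          have h8 := (FreeGroup.isReduced_cons_cons.1 hred).1
          rw [h5, h7] at h8
          have h9 := h8 rfl
          simp [inv] at h9
      have hred' : FreeGroup.IsReduced w := hred.tail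
      exact ⟨z, ih x z hred' hz hx hzv, fun m => h1 _ _ _ (hy m) (hzv m) (hyv m)⟩
  intro w x hx hred hw
  by_cases hv : ∀ m, x m ≠ v
  · exact hS w x hx hred (key w x x hred hw hv hv)
  · push Not at hv
    obtain ⟨m0, hm0⟩ := hv
    rcases w with _ | ⟨l, w⟩
    · rfl
    exfalso
    obtain ⟨z, hz, hy⟩ := hw
    have h4 := hy m0
    rw [hm0] at h4
    obtain ⟨hl, hzu⟩ := h3 _ _ h4
    rcases List.eq_nil_or_concat w with hnil | ⟨w'', l', hcon⟩
    · rw [hnil] at hz
      obtain rfl : x = z := hz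
      exact huv (hzu.symm.trans hm0)
    · rw [List.concat_eq_append] at hcon
      rw [hcon, walk_append] at hz
      obtain ⟨y', ⟨x', hx', hy'⟩, hz⟩ := hz
      obtain rfl : x = x' := hx'
      have h5 := hy' m0
      rw [hm0] at h5
      obtain ⟨hl', -⟩ := h2 _ _ h5
      have hyz : y' = z := by
        funext m
        have h6 := hPB.symm _ _ _ (hy' m)
        have h7 := hy m
        rw [hl'] at h6
        rw [hl] at h7
        exact hPB.inj h6 h7
      have hzv : ∀ m, z m ≠ v := by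
        intro m hm
        have h6 := hy m
        rw [hm] at h6
        obtain ⟨h7, -⟩ := h2 _ _ h6
        rw [hl] at h7
        exact inv_ne l0 h7.symm
      have hredw : FreeGroup.IsReduced (w'' ++ [l']) := hcon ▸ hred.tail
      have hred'' : FreeGroup.IsReduced w'' := List.IsChain.left_of_append hredw
      rw [hyz] at hz
      have hzinj : Injective z := by
        rw [← hyz]
        exact hPB.stp_inj hy' hx
      have h8 := hS w'' z hzinj hred'' (key w'' z z hred'' hz hzv hzv)
      rw [h8, List.nil_append] at hcon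
      rw [hcon, hl, hl'] at hred
      have h9 := (FreeGroup.isReduced_cons_cons.1 hred).1 rfl
      simp [inv] at h9

theorem first_occ (j : ℕ) : ∀ w : List (ℕ × Bool), (∀ l ∈ w, l.1 ≠ j) ∨
    ∃ u ε t, w = u ++ (j, ε) :: t ∧ ∀ l ∈ u, l.1 ≠ j
  | [] => Or.inl fun l hl => absurd hl List.not_mem_nil
  | l :: w => by
    by_cases hl : l.1 = j
    · exact Or.inr ⟨[], l.2, w, by rw [← hl]; rfl, fun l hl => absurd hl List.not_mem_nil⟩
    · rcases first_occ j w with h | ⟨u, ε, t, h1, h2⟩
      · left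
        intro l' hl'
        rcases List.mem_cons.1 hl' with rfl | hl'
        · exact hl
        · exact h l' hl'
      · right
        refine ⟨l :: u, ε, t, by rw [h1]; rfl, fun l' hl' => ?_⟩
        rcases List.mem_cons.1 hl' with rfl | hl'
        · exact hl
        · exact h2 l' hl'

/-- adding a new generator defined on one tuple -/
theorem forest_gen {S S' : ℕ × Bool → X → X → Prop} (hS : Forest S k) (hPB : PB S) (hPB' : PB S')
    (j : ℕ) (a b : Fin k → X) (ha : Injective a) (hb : Injective b)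
    (h1 : ∀ l x y, l.1 ≠ j → S' l x y → S l x y)
    (h2 : ∀ x y, S' (j, true) x y → ∃ m, x = a m ∧ y = b m)
    (hconn : ∀ w, ¬ Walk S w a b)
    (T : (Fin k → X) → (Fin k → X) → Prop) (hT : ∀ x y, T x y → T y x)
    (hT2 : ∀ x y z, T x y → T y z → T x z)
    (hTS : ∀ w x y, Injective x → Walk S w x y → T x y) (hTab : T a b)
    (hrig : ∀ x (τ : Fin k → Fin k), Injective x → Injective τ → T x (x ∘ τ) → τ = id) :
    Forest S' k := by
  classical
  -- steps with the new letter
  have hst : ∀ x y : Fin k → X, Injective x → Stp S' (j, true) x y →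
      ∃ τ : Fin k → Fin k, Injective τ ∧ x = a ∘ τ ∧ y = b ∘ τ := by
    intro x y hx hxy
    choose τ h3 h4 using fun m => h2 _ _ (hxy m)
    have hx' : x = a ∘ τ := funext h3
    refine ⟨τ, fun m m' hm => hx ?_, hx', funext h4⟩
    rw [h3, h3, hm]
  have hst' : ∀ x y : Fin k → X, Injective x → Stp S' (j, false) x y →
      ∃ τ : Fin k → Fin k, Injective τ ∧ x = b ∘ τ ∧ y = a ∘ τ := by
    intro x y hx hxy
    have hy : Injective y := hPB'.stp_inj hxy hx
    obtain ⟨τ, h3, h4, h5⟩ := hst y x hy fun m => hPB'.symm _ _ _ (hxy m)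
    exact ⟨τ, h3, h5, h4⟩
  have hmono : ∀ (w : List (ℕ × Bool)) (x y : Fin k → X), (∀ l ∈ w, l.1 ≠ j) →
      Walk S' w x y → Walk S w x y := by
    intro w
    induction w with
    | nil => exact fun x y _ hw => hw
    | cons l w ih =>
      rintro x y hl ⟨z, hz, hy⟩
      exact ⟨z, ih x z (fun l' hl' => hl l' (List.mem_cons_of_mem _ hl')) hz,
        fun m => h1 _ _ _ (hl l List.mem_cons_self) (hy m)⟩
  -- there are no walks between permutations of `a` and of `b`
  have hinvt : ∀ τ : Fin k → Fin k, Injective τ → ∃ ρ : Fin k → Fin k, τ ∘ ρ = id := by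
    intro τ hτ
    have h3 : Surjective τ := Finite.surjective_of_injective hτ
    obtain ⟨ρ, hρ⟩ := h3.hasRightInverse
    exact ⟨ρ, funext hρ⟩
  have hcompi : ∀ (x : Fin k → X) (τ ρ : Fin k → Fin k), τ ∘ ρ = id → (x ∘ τ) ∘ ρ = x := by
    intro x τ ρ h
    rw [Function.comp_assoc, h, Function.comp_id]
  have hcab : ∀ (w : List (ℕ × Bool)) (τ τ' : Fin k → Fin k), Injective τ → Injective τ' →
      ¬ Walk S w (a ∘ τ) (b ∘ τ') := by
    intro w τ τ' hτ hτ' hw
    obtain ⟨ρ, hρ⟩ := hinvt τ hτ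
    have h3 := Walk.comp ρ w hw
    rw [hcompi a τ ρ hρ] at h3
    have h4 : T a ((b ∘ τ') ∘ ρ) := hTS w _ _ ha h3
    have h5 : T b (b ∘ (τ' ∘ ρ)) := hT2 _ _ _ (hT _ _ hTab) h4
    have hρi : Injective ρ := by
      intro m m' hm
      have h6 := congrArg τ hm
      have h7 := congrFun hρ m
      have h8 := congrFun hρ m'
      simp only [Function.comp_apply, id] at h7 h8
      rw [h7, h8] at h6
      exact h6
    have h6 := hrig b (τ' ∘ ρ) hb (hτ'.comp hρi) h5
    rw [Function.comp_assoc, h6, Function.comp_id] at h3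
    exact hconn w h3
  have hcba : ∀ (w : List (ℕ × Bool)) (τ τ' : Fin k → Fin k), Injective τ → Injective τ' →
      ¬ Walk S w (b ∘ τ) (a ∘ τ') := by
    intro w τ τ' hτ hτ' hw
    obtain ⟨w', hw'⟩ := Walk.symm hPB w hw
    exact hcab w' τ' τ hτ' hτ hw'
  -- closed walks
  have hcl : ∀ (c : Fin k → X), Injective c → ∀ (w : List (ℕ × Bool)) (τ τ' : Fin k → Fin k),
      Injective τ → Injective τ' → FreeGroup.IsReduced w → Walk S w (c ∘ τ) (c ∘ τ') → w = [] := by
    intro c hc w τ τ' hτ hτ' hred hw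
    obtain ⟨ρ, hρ⟩ := hinvt τ hτ
    have h3 := Walk.comp ρ w hw
    rw [hcompi c τ ρ hρ] at h3
    have h4 : T c (c ∘ (τ' ∘ ρ)) := hTS w _ _ hc h3
    have hρi : Injective ρ := by
      intro m m' hm
      have h6 := congrArg τ hm
      have h7 := congrFun hρ m
      have h8 := congrFun hρ m'
      simp only [Function.comp_apply, id] at h7 h8
      rw [h7, h8] at h6
      exact h6
    have h6 := hrig c (τ' ∘ ρ) hc (hτ'.comp hρi) h4
    rw [Function.comp_assoc, h6, Function.comp_id] at h3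
    exact hS w c hc hred h3
  intro w x hx hred hw
  rcases first_occ j w with hno | ⟨u, ε, t, rfl, hu⟩
  · exact hS w x hx hred (hmono w x x hno hw)
  exfalso
  rw [walk_append] at hw
  obtain ⟨q, ⟨p, hp, hpq⟩, hqx⟩ := hw
  have hpi : Injective p := hPB'.walk_inj t hp hx
  have hqx' := hmono u q x hu hqx
  rcases first_occ j t with hno | ⟨u', ε', t', rfl, hu'⟩
  · have h3 : Walk S (t ++ u) q p := (walk_append S t u q p).2 ⟨x, hqx', hmono t x p hno hp⟩
    cases ε with
    | true =>
      obtain ⟨τ, hτ, rfl, rfl⟩ := hst p q hpi hpq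
      exact hcba _ τ τ hτ hτ h3
    | false =>
      obtain ⟨τ, hτ, rfl, rfl⟩ := hst' p q hpi hpq
      exact hcab _ τ τ hτ hτ h3
  · rw [walk_append] at hp
    obtain ⟨q', ⟨p', hp', hpq'⟩, hqp⟩ := hp
    have hpi' : Injective p' := hPB'.walk_inj t' hp' hx
    have hqp' := hmono u' q' p hu' hqp
    have hred1 : FreeGroup.IsReduced ((j, ε) :: (u' ++ (j, ε') :: t')) :=
      List.IsChain.right_of_append hred
    have hred2 : FreeGroup.IsReduced u' := List.IsChain.left_of_append hred1.tail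
    cases ε with
    | true =>
      obtain ⟨τ, hτ, rfl, rfl⟩ := hst p q hpi hpq
      cases ε' with
      | true =>
        obtain ⟨τ', hτ', rfl, rfl⟩ := hst p' q' hpi' hpq'
        exact hcba _ τ' τ hτ' hτ hqp'
      | false =>
        obtain ⟨τ', hτ', rfl, rfl⟩ := hst' p' q' hpi' hpq'
        have h4 := hcl a ha u' τ' τ hτ' hτ hred2 hqp'
        rw [h4, List.nil_append] at hred1
        exact absurd ((FreeGroup.isReduced_cons_cons.1 hred1).1 rfl) (by simp)
    | false =>
      obtain ⟨τ, hτ, rfl, rfl⟩ := hst' p q hpi hpq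
      cases ε' with
      | true =>
        obtain ⟨τ', hτ', rfl, rfl⟩ := hst p' q' hpi' hpq'
        have h4 := hcl b hb u' τ' τ hτ' hτ hred2 hqp'
        rw [h4, List.nil_append] at hred1
        exact absurd ((FreeGroup.isReduced_cons_cons.1 hred1).1 rfl) (by simp)
      | false =>
        obtain ⟨τ', hτ', rfl, rfl⟩ := hst' p' q' hpi' hpq'
        exact hcab _ τ' τ hτ' hτ hqp'

end Pool.Agent.X225.Fr
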